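import Mathlib

namespace Pool.Agent.Results.MP_d064d6_lc.NotConvex

open Finset

/-- the antiferromagnetic Potts interaction matrix -/
def A (q : ℕ) (β : ℝ) (c b : Fin q) : ℝ := if c = b then β else 1

/-- expectation of the product of interactions under the product of the measures `p i` -/
def G (q d : ℕ) (β : ℝ) (p : Fin d → Fin q → ℝ) (c : Fin q) : ℝ :=
  ∑ τ : Fin d → Fin q, (∏ i, p i (τ i)) * ∏ i, A q β c (τ i)

/-- the image of product measures under belief propagation -/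
def Fprod (q d : ℕ) (β : ℝ) : Set (Fin q → ℝ) :=
  {x | ∃ p : Fin d → Fin q → ℝ, (∀ i, p i ∈ stdSimplex ℝ (Fin q)) ∧ 0 < ∑ c, G q d β p c ∧
    x = fun c => G q d β p c / ∑ b, G q d β p b}

theorem G_eq (q d : ℕ) (β : ℝ) (p : Fin d → Fin q → ℝ) (c : Fin q) :
    G q d β p c = ∏ i, ∑ b, p i b * A q β c b := by
  rw [Finset.prod_univ_sum, Fintype.piFinset_univ]
  exact Finset.sum_congr rfl fun τ _ => (Finset.prod_mul_distrib).symm

theorem row (β : ℝ) (r : Fin 4 → ℝ) (h : ∑ b, r b = 1) (c : Fin 4) :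
    ∑ b, r b * A 4 β c b = 1 - (1 - β) * r c := by
  rw [Fin.sum_univ_four] at h ⊢
  fin_cases c <;> simp [A] <;> linarith

theorem G_two (β : ℝ) (p : Fin 2 → Fin 4 → ℝ) (h : ∀ i, p i ∈ stdSimplex ℝ (Fin 4)) (c : Fin 4) :
    G 4 2 β p c = (1 - (1 - β) * p 0 c) * (1 - (1 - β) * p 1 c) := by
  rw [G_eq, Fin.prod_univ_two, row β _ (h 0).2, row β _ (h 1).2]

theorem vert (β : ℝ) (h0 : 0 ≤ β) (a b : Fin 4) (hab : a ≠ b) :
    (fun c => (if c = a ∨ c = b then β else 1) / (2 + 2 * β)) ∈ Fprod 4 2 β := by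
  have hs : ∀ i, (![Pi.single a 1, Pi.single b 1] : Fin 2 → Fin 4 → ℝ) i ∈ stdSimplex ℝ (Fin 4) := by
    intro i
    fin_cases i
    · exact single_mem_stdSimplex ℝ a
    · exact single_mem_stdSimplex ℝ b
  have hG : ∀ c, G 4 2 β ![Pi.single a 1, Pi.single b 1] c = if c = a ∨ c = b then β else 1 := by
    intro c
    rw [G_two β _ hs]
    by_cases h1 : c = a
    · subst h1; simp [hab]
    · by_cases h2 : c = b
      · subst h2; simp [h1]
      · simp [h1, h2]
  have hS : ∑ c, G 4 2 β ![Pi.single a 1, Pi.single b 1] c = 2 + 2 * β := by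
    simp only [hG, Fin.sum_univ_four]
    fin_cases a <;> fin_cases b <;> simp at hab ⊢ <;> ring
  refine ⟨_, hs, by rw [hS]; linarith, ?_⟩
  funext c
  rw [hS, hG]

theorem result (β : ℝ) (h0 : 0 ≤ β) (h1 : β < 1) : ¬ Convex ℝ (Fprod 4 2 β) := by
  intro hc
  have m1 := hc (vert β h0 1 2 (by decide)) (vert β h0 1 3 (by decide))
    (show (0 : ℝ) ≤ 1 / 2 by norm_num) (show (0 : ℝ) ≤ 1 / 2 by norm_num) (by norm_num)
  obtain ⟨p, hp, hS, e⟩ := hc m1 (vert β h0 2 3 (by decide))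
    (show (0 : ℝ) ≤ 2 / 3 by norm_num) (show (0 : ℝ) ≤ 1 / 3 by norm_num) (by norm_num)
  have hZ : (0 : ℝ) < 2 + 2 * β := by linarith
  have e0 := congrFun e 0
  have e1 := congrFun e 1
  have e2 := congrFun e 2
  have e3 := congrFun e 3
  generalize ∑ b, G 4 2 β p b = S at hS e0 e1 e2 e3
  simp at e0 e1 e2 e3
  field_simp at e0 e1 e2 e3
  have f1 : 3 * G 4 2 β p 1 = (1 + 2 * β) * G 4 2 β p 0 := by
    apply mul_left_cancel₀ hZ.ne'
    nlinarith
  have f2 : 3 * G 4 2 β p 2 = (1 + 2 * β) * G 4 2 β p 0 := by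
    apply mul_left_cancel₀ hZ.ne'
    nlinarith
  have f3 : 3 * G 4 2 β p 3 = (1 + 2 * β) * G 4 2 β p 0 := by
    apply mul_left_cancel₀ hZ.ne'
    nlinarith
  rw [G_two β p hp, G_two β p hp] at f1 f2 f3
  have s0 := (hp 0).2
  have s1 := (hp 1).2
  rw [Fin.sum_univ_four] at s0 s1
  have a0 := (hp 0).1 0
  have a1 := (hp 0).1 1
  have a2 := (hp 0).1 2
  have a3 := (hp 0).1 3
  have b0 := (hp 1).1 0
  have b1 := (hp 1).1 1
  have b2 := (hp 1).1 2
  have b3 := (hp 1).1 3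
  generalize p 0 0 = x0 at *
  generalize p 0 1 = x1 at *
  generalize p 0 2 = x2 at *
  generalize p 0 3 = x3 at *
  generalize p 1 0 = y0 at *
  generalize p 1 1 = y1 at *
  generalize p 1 2 = y2 at *
  generalize p 1 3 = y3 at *
  obtain ⟨t, rfl⟩ : ∃ t, β = 1 - t := ⟨1 - β, by ring⟩
  have t0 : 0 < t := by linarith
  have t1 : t ≤ 1 := by linarith
  have key : t * ((x0 + y0) * (4 - 2 * t) - (3 - 2 * t) * t * (x0 * y0) +
      t * (x1 * y1 + x2 * y2 + x3 * y3)) = 0 := by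
    have hx : x1 = 1 - x0 - x2 - x3 := by linarith
    have hy : y1 = 1 - y0 - y2 - y3 := by linarith
    subst hx hy
    linear_combination (f1 + f2 + f3) / 3
  have key2 := (mul_eq_zero.1 key).resolve_left t0.ne'
  have c1 := mul_nonneg a1 b1
  have c2 := mul_nonneg a2 b2
  have c3 := mul_nonneg a3 b3
  clear e0 e1 e2 e3 e m1 hc key
  have c0 : x0 * y0 ≤ x0 + y0 := by
    have : x0 * y0 ≤ x0 * 1 := mul_le_mul_of_nonneg_left (by linarith) a0
    linarith
  have c00 := mul_nonneg a0 b0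
  have u : (3 - 2 * t) * t * (x0 * y0) ≤ (3 - 2 * t) * (x0 + y0) := by
    have h2 : t * (x0 * y0) ≤ 1 * (x0 * y0) := mul_le_mul_of_nonneg_right t1 c00
    rw [mul_assoc]
    exact mul_le_mul_of_nonneg_left (by linarith) (by linarith)
  have v : 0 ≤ t * (x1 * y1 + x2 * y2 + x3 * y3) := by positivity
  have z0 : x0 + y0 = 0 := by
    have h3 : (x0 + y0) * (4 - 2 * t) = (3 - 2 * t) * (x0 + y0) + (x0 + y0) := by ring
    linarith
  have hx0 : x0 = 0 := by linarith
  have hy0 : y0 = 0 := by linarith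
  subst hx0 hy0
  have w : x1 * y1 + x2 * y2 + x3 * y3 = 0 := by
    have : t * (x1 * y1 + x2 * y2 + x3 * y3) = 0 := by linarith
    exact (mul_eq_zero.1 this).resolve_left t0.ne'
  have w1 : x1 * y1 = 0 := by linarith
  have w2 : x2 * y2 = 0 := by linarith
  have w3 : x3 * y3 = 0 := by linarith
  have g1 : x1 + y1 = 2 / 3 := by
    apply mul_left_cancel₀ t0.ne'
    linear_combination (-1 / 3) * f1 + t * t * w1
  have g2 : x2 + y2 = 2 / 3 := by
    apply mul_left_cancel₀ t0.ne'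
    linear_combination (-1 / 3) * f2 + t * t * w2
  have g3 : x3 + y3 = 2 / 3 := by
    apply mul_left_cancel₀ t0.ne'
    linear_combination (-1 / 3) * f3 + t * t * w3
  rcases mul_eq_zero.1 w1 with h | h <;> rcases mul_eq_zero.1 w2 with h' | h' <;>
    rcases mul_eq_zero.1 w3 with h'' | h'' <;> linarith

end Pool.Agent.Results.MP_d064d6_lc.NotConvex
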